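import Pool.Agent.UL4.Stmts

/-!
Squad UL4 (MP_c7c9bf_co), row SCG: the horizontal sections of a convex body.
-/

set_option autoImplicit false

namespace Pool.Agent.UL4.H75

open MeasureTheory Set Pool.Agent.UL3

theorem up_cont (t : ℝ) : Continuous fun p : ℝ × ℝ => up p t := by
  unfold up
  refine (PiLp.continuous_toLp 2 _).comp ?_
  refine continuous_pi fun i => ?_
  fin_cases i
  · exact continuous_fst
  · exact continuous_snd
  · exact continuous_const

theorem scg : ScgStmt := by
  intro K w hK hw
  refine ⟨fun t => ⟨?_, ?_⟩, ?_, ?_, ?_⟩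
  · have h1 : IsCompact ((fun x : E3 => (x 0, x 1)) '' K) := by
      refine hK.cpt.image ?_
      fun_prop
    refine h1.of_isClosed_subset ?_ ?_
    · exact hK.cpt.isClosed.preimage (up_cont t)
    · intro p hp
      exact ⟨up p t, hp, rfl⟩
  · intro p hp q hq a b ha hb hab
    rw [mem_sec] at hp hq ⊢
    have h1 := hK.cvx hp hq ha hb hab
    rw [up_smul, up_smul, up_add, ← add_mul, hab, one_mul] at h1
    exact h1
  · rintro t ⟨ht0, htw⟩
    obtain ⟨x, hx, hx0⟩ := hw.bot
    obtain ⟨y, hy, hyw⟩ := hw.top
    have hwp := hw.pos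
    have h1 : (1 - t / w) + t / w = 1 := by ring
    have h2 : 0 ≤ 1 - t / w := by
      rw [sub_nonneg, div_le_one hwp]
      exact htw
    have h3 := hK.cvx hx hy h2 (div_nonneg ht0 hwp.le) h1
    set z := (1 - t / w) • x + (t / w) • y with hz
    have h4 : z 2 = t := by
      rw [hz]
      simp only [PiLp.add_apply, PiLp.smul_apply, smul_eq_mul, hx0, hyw, mul_zero, zero_add]
      field_simp
    refine ⟨(z 0, z 1), ?_⟩
    rw [mem_sec, ← h4, up_self]
    exact h3
  · intro t ht
    rw [Set.eq_empty_iff_forall_notMem]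
    intro p hp
    rw [mem_sec] at hp
    have h1 := hw.rng _ hp
    rw [up_two] at h1
    exact ht h1
  · unfold V
    rw [Measure.real]
    refine ENNReal.toReal_pos ?_ hK.cpt.measure_lt_top.ne
    have h1 : 0 < (volume : Measure E3) (interior K) := isOpen_interior.measure_pos _ hK.int
    exact (h1.trans_le (measure_mono interior_subset)).ne'

end Pool.Agent.UL4.H75
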